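import Pool.Agent.TH158.FM.Rng
import Pool.Agent.W22.EH.EX
import Pool.Agent.W903.EH.BK
import Pool.Agent.W347.EH.KT

set_option autoImplicit false

/-!
The moments of order `2k` for large `k` in the range given by the Weyl bound.
-/

namespace Pool.Agent.Y754.ZM

open Complex MeasureTheory Set Pool.Agent.TH158.FM

noncomputable section

/-- the Weyl bound on the whole interval `[0, T]`, for large `T` -/
lemma sup_weyl {ε : ℝ} (hε : 0 < ε) : ∃ T1 : ℝ, 1000 ≤ T1 ∧ ∀ T : ℝ, T1 ≤ T →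
    ∀ t ∈ Icc (0:ℝ) T, ‖riemannZeta (pt (1 / 2) t)‖ ≤ T ^ (1 / 6 + ε) := by
  obtain ⟨T0, hT0⟩ := Pool.Agent.W22.EH.ex (Pool.Agent.W903.EH.bk Pool.Agent.W347.EH.kt)
      Pool.Agent.W903.EH.b1 ε hε
  set D : ℝ := max 1 (3 + T0) with hD
  have hD1 : 1 ≤ D := le_max_left _ _
  refine ⟨max 1000 (D ^ (6:ℝ)), le_max_left _ _, fun T hT t ht => ?_⟩
  have hT1 : 1000 ≤ T := le_trans (le_max_left _ _) hT
  have hT2 : D ^ (6:ℝ) ≤ T := le_trans (le_max_right _ _) hT
  have hT3 : 0 < T := by linarith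
  rcases le_total T0 t with h | h
  · have h1 := (hT0 t h).1
    rw [pt_half]
    refine h1.trans ?_
    exact Real.rpow_le_rpow ht.1 ht.2 (by positivity)
  · have h1 := zb_true t
    rw [abs_of_nonneg ht.1] at h1
    have h2 : 3 + t ≤ D := le_trans (by linarith) (le_max_right _ _)
    have h3 : D ≤ T ^ (1 / 6 : ℝ) := by
      calc D = (D ^ (6:ℝ)) ^ (1 / 6 : ℝ) := by
            rw [← Real.rpow_mul (by linarith)]
            norm_num
        _ ≤ T ^ (1 / 6 : ℝ) := Real.rpow_le_rpow (by positivity) hT2 (by norm_num)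
    have h4 : T ^ (1 / 6 : ℝ) ≤ T ^ (1 / 6 + ε) :=
      Real.rpow_le_rpow_of_exponent_le (by linarith) (by linarith)
    linarith

/-- the range `log T ≤ (3 - δ) k log log T`, in particular `T ≤ (k log k) ^ ((3 - δ) k)`, for `k`
large -/
theorem weyl_range (δ : ℝ) (hδ : 0 < δ) : ∃ k0 : ℝ, 3 ≤ k0 ∧ ∀ k T : ℝ, k0 ≤ k → 1000 ≤ T →
    (Real.log T ≤ (3 - δ) * k * Real.log (Real.log T) ∨ T ≤ (k * Real.log k) ^ ((3 - δ) * k)) →
    MM k T ≤ 4 / 5 * (T * Real.log T ^ (k ^ 2)) := by
  have hε : 0 < δ / 18 := by positivity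
  obtain ⟨T1, hT1, hW⟩ := sup_weyl hε
  refine ⟨max 3 T1, le_max_left _ _, fun k T hk hT hTk => ?_⟩
  have hk3 : 3 ≤ k := le_trans (le_max_left _ _) hk
  have hkT : T1 ≤ k := le_trans (le_max_right _ _) hk
  have hk0 : 0 < k := by linarith
  have hlk : 1 ≤ Real.log k := by
    rw [Real.le_log_iff_exp_le hk0]
    have := Real.exp_one_lt_d9
    linarith
  have hB : k ≤ k * Real.log k := by nlinarith
  have hB1 : 1 ≤ k * Real.log k := by linarith
  rcases le_total T ((2 * k * Real.log k) ^ (2 * k)) with h | h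
  · exact all_region k T (by linarith) hT h
  -- now `T` is larger
  have hT0 : 0 < T := by linarith
  have h2B : k ≤ 2 * k * Real.log k := by nlinarith
  have hTT : T1 ≤ T := by
    have h1 : (2 * k * Real.log k) ^ (1:ℝ) ≤ (2 * k * Real.log k) ^ (2 * k) :=
      Real.rpow_le_rpow_of_exponent_le (by linarith) (by linarith)
    rw [Real.rpow_one] at h1
    linarith
  have hm := moment_gen hT (by linarith : 2 ≤ k) (Real.rpow_nonneg hT0.le _) (hW T hTT)
    (fourth_all T hT)
  refine hm.trans ?_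
  set y := Real.log T with hy
  have hl := log_ge hT
  have hy0 : 0 < y := by linarith
  -- the lower bound for `y`
  have hy1 : k * Real.log k ≤ y := by
    have h1 := Real.log_le_log (by positivity) h
    rw [Real.log_rpow (by linarith)] at h1
    have h3 : Real.log k ≤ Real.log (2 * k * Real.log k) := Real.log_le_log hk0 h2B
    nlinarith
  -- the upper bound for `y`
  have hy2 : y ≤ (3 - δ) * k * Real.log y := by
    rcases hTk with hTk | hTk
    · exact hTk
    have hδ1 : δ ≤ 1 := by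
      by_contra hcon
      push Not at hcon
      have h1 : T ≤ (k * Real.log k) ^ (2 * k) := hTk.trans
        (Real.rpow_le_rpow_of_exponent_le hB1 (by nlinarith))
      have h2 : (k * Real.log k) ^ (2 * k) < (2 * k * Real.log k) ^ (2 * k) :=
        Real.rpow_lt_rpow (by linarith) (by nlinarith) (by linarith)
      linarith
    have h1 := Real.log_le_log hT0 hTk
    rw [Real.log_rpow (by linarith)] at h1
    have h3 : Real.log (k * Real.log k) ≤ Real.log y := Real.log_le_log (by linarith) hy1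
    have h4 : 0 ≤ (3 - δ) * k := mul_nonneg (by linarith) hk0.le
    calc y ≤ (3 - δ) * k * Real.log (k * Real.log k) := h1
      _ ≤ _ := mul_le_mul_of_nonneg_left h3 h4
  have hly : 0 ≤ Real.log y := Real.log_nonneg (by linarith)
  have h5 : (T ^ (1 / 6 + δ / 18)) ^ (2 * k - 4) ≤ y ^ (k ^ 2 - 4) := by
    rw [← Real.rpow_mul hT0.le, Real.rpow_def_of_pos hT0, Real.rpow_def_of_pos hy0, ← hy]
    apply Real.exp_le_exp.2
    have h6 : y * ((1 / 6 + δ / 18) * (2 * k - 4)) ≤
        (3 - δ) * k * Real.log y * ((1 / 6 + δ / 18) * (2 * k - 4)) :=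
      mul_le_mul_of_nonneg_right hy2 (mul_nonneg (by positivity) (by linarith))
    refine h6.trans ?_
    have h7 : (3 - δ) * k * Real.log y * ((1 / 6 + δ / 18) * (2 * k - 4)) =
        Real.log y * ((1 - δ ^ 2 / 9) * (k * (k - 2))) := by ring
    rw [h7]
    apply mul_le_mul_of_nonneg_left _ hly
    have h8 : 0 ≤ k * (k - 2) := mul_nonneg hk0.le (by linarith)
    have h9 : 0 ≤ δ ^ 2 / 9 := by positivity
    nlinarith
  have e : y ^ (k ^ 2) = y ^ (k ^ 2 - 4) * y ^ 4 := by
    have : y ^ 4 = y ^ (4 : ℝ) := by norm_cast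
    rw [this, ← Real.rpow_add hy0]
    congr 1
    ring
  rw [e]
  calc (T ^ (1 / 6 + δ / 18)) ^ (2 * k - 4) * (4 / 5 * (T * y ^ 4))
      ≤ y ^ (k ^ 2 - 4) * (4 / 5 * (T * y ^ 4)) := by gcongr
    _ = _ := by ring

end

end Pool.Agent.Y754.ZM
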